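import Pool.Agent.Lib_MP_c79a71_lc.HardRed

/-!
# The Hadamard decomposition problem is complete for the existential theory of the reals
-/

namespace Pool.Agent.Results.MP_c79a71_lc.HadamardComplete

/-- The Hadamard decomposition problem is `∃ℝ`-complete: it has a polynomial-time many-one
reduction to the existential theory of the reals, and every decision problem with such a reduction
to the existential theory of the reals has a polynomial-time many-one reduction to the Hadamard
decomposition problem. -/
theorem result : N793a5b8e.IsCompleteFor Pool.Agent.Hadamard.ExistsR
    Pool.Agent.Hadamard.HadamardDecompositionProblem :=
  Pool.Agent.Hadamard.hd_complete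

end Pool.Agent.Results.MP_c79a71_lc.HadamardComplete
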